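import Pool.Agent.R574.LS.LF

set_option autoImplicit false

/-!
# Left forbidding E0L grammars generate more than ET0L grammars

The grammar of `Pool.Agent.R574.LS.LF` is a propagating left forbidding E0L grammar. Its nonempty
words are words `(a b^T)^n` with `n ≤ T`, and all words `(a b^T)^T` with `1 ≤ T` are among them. No
ET0L grammar generates a language with these properties, even if the empty word is disregarded.
-/

open Pool.Agent.R574.LS in
/-- Some propagating left forbidding E0L grammar over a two-letter alphabet generates a language
which no ET0L grammar generates, not even up to the empty word. -/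
theorem Pool.Agent.Results.MP_7f9305_lc.LeftForbiddingBeyondET0L.result :
    ∃ H : LRC (Fin 2), H.LeftForbidding ∧ H.Propagating ∧
      ∀ G : ET0L (Fin 2), ∃ w : List (Fin 2), w ≠ [] ∧ ¬ (w ∈ G.language ↔ w ∈ H.language) :=
  ⟨LF.G, LF.leftForbidding, LF.propagating, fun G => by
    obtain ⟨w, h1, h2⟩ := not_ET0L_K1 LF.G.language LF.sound LF.complete G
    exact ⟨w, h1, h2⟩⟩
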